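import Mathlib

set_option autoImplicit false

namespace Pool.Agent.Helper27

theorem succ_pow_le (m : ℕ) (hm : 0 < m) (a : ℕ) : (a + 1) ^ m ≤ 2 * m ^ m * 2 ^ a := by
  have h1 : a + 1 ≤ m * ((a + 1) / m + 1) := (Nat.lt_mul_div_succ (a + 1) hm).le
  have h2 : (a + 1) / m + 1 ≤ 2 ^ ((a + 1) / m) := Nat.lt_two_pow_self
  have h3 : a + 1 ≤ m * 2 ^ ((a + 1) / m) := h1.trans (Nat.mul_le_mul_left _ h2)
  calc (a + 1) ^ m ≤ (m * 2 ^ ((a + 1) / m)) ^ m := Nat.pow_le_pow_left h3 m
    _ = m ^ m * 2 ^ (((a + 1) / m) * m) := by rw [mul_pow, ← pow_mul]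
    _ ≤ m ^ m * 2 ^ (a + 1) := by
        apply Nat.mul_le_mul_left
        exact Nat.pow_le_pow_right (by norm_num) (Nat.div_mul_le_self _ _)
    _ = 2 * m ^ m * 2 ^ a := by ring

theorem card_divisors_pow_le (m : ℕ) (hm : 0 < m) (n : ℕ) (hn : 0 < n) :
    n.divisors.card ^ m ≤
      (2 * m ^ m) ^ (n.primeFactors.filter (fun q => q < 2 ^ m)).card * n := by
  revert hn
  induction n using Nat.recOnPosPrimePosCoprime with
  | zero => intro h; exact absurd h (lt_irrefl 0)
  | one => intro _; simp
  | prime_pow q a hq ha =>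
    intro _
    rw [Nat.divisors_prime_pow hq, Finset.card_map, Finset.card_range,
      Nat.primeFactors_prime_pow ha.ne' hq]
    by_cases h : q < 2 ^ m
    · rw [Finset.filter_singleton, if_pos h, Finset.card_singleton, pow_one]
      refine (succ_pow_le m hm a).trans ?_
      gcongr
      exact hq.two_le
    · rw [Finset.filter_singleton, if_neg h, Finset.card_empty, pow_zero, one_mul]
      push Not at h
      calc (a + 1) ^ m ≤ (2 ^ a) ^ m := Nat.pow_le_pow_left Nat.lt_two_pow_self m
        _ = (2 ^ m) ^ a := by rw [← pow_mul, ← pow_mul, mul_comm]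
        _ ≤ q ^ a := Nat.pow_le_pow_left h a
  | coprime a b ha hb hab iha ihb =>
    intro _
    have ha0 : 0 < a := by omega
    have hb0 : 0 < b := by omega
    have e1 : (a * b).divisors.card = a.divisors.card * b.divisors.card :=
      hab.card_divisors_mul
    have e2 : (a * b).primeFactors = a.primeFactors ∪ b.primeFactors :=
      hab.primeFactors_mul
    have e3 : ((a * b).primeFactors.filter (fun q => q < 2 ^ m)).card =
        (a.primeFactors.filter (fun q => q < 2 ^ m)).card +
        (b.primeFactors.filter (fun q => q < 2 ^ m)).card := by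
      rw [e2, Finset.filter_union, Finset.card_union_of_disjoint]
      exact Finset.disjoint_filter_filter hab.disjoint_primeFactors
    rw [e1, e3, mul_pow, pow_add]
    calc a.divisors.card ^ m * b.divisors.card ^ m ≤
        ((2 * m ^ m) ^ (a.primeFactors.filter (fun q => q < 2 ^ m)).card * a) *
        ((2 * m ^ m) ^ (b.primeFactors.filter (fun q => q < 2 ^ m)).card * b) :=
          Nat.mul_le_mul (iha ha0) (ihb hb0)
      _ = _ := by ring

theorem card_divisors_pow_le' (m : ℕ) (hm : 0 < m) (n : ℕ) (hn : 0 < n) :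
    n.divisors.card ^ m ≤ (2 * m ^ m) ^ (2 ^ m) * n := by
  refine (card_divisors_pow_le m hm n hn).trans (Nat.mul_le_mul_right _ ?_)
  apply Nat.pow_le_pow_right
  · have : 0 < m ^ m := pow_pos hm m
    omega
  · have h : n.primeFactors.filter (fun q => q < 2 ^ m) ⊆ Finset.range (2 ^ m) := by
      intro q hq
      exact Finset.mem_range.2 (Finset.mem_filter.1 hq).2
    exact (Finset.card_le_card h).trans (by rw [Finset.card_range])

end Pool.Agent.Helper27
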