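import Mathlib

set_option autoImplicit false

namespace Pool.Agent.Helper27

/-- `A` is an `(i, j)`-walk from `k`: it starts at `k` and every step adds `i` or `j`. -/
def IsWalk (i j k : ℤ) (A : ℕ → ℤ) : Prop :=
  A 0 = k ∧ ∀ n : ℕ, A (n + 1) - A n = i ∨ A (n + 1) - A n = j

/-- The integer `a` is a (positive rational) prime. -/
def IsPosPrime (a : ℤ) : Prop :=
  ∃ p : ℕ, p.Prime ∧ a = (p : ℤ)

/-- The pair `(i, j)` forces primes: every `(i, j)`-walk from every odd integer has a prime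
term. -/
def ForcesPrimes (i j : ℤ) : Prop :=
  ∀ k : ℤ, Odd k → ∀ A : ℕ → ℤ, IsWalk i j k A → ∃ n : ℕ, IsPosPrime (A n)

end Pool.Agent.Helper27
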