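import Mathlib
import Pool.Agent.Helper27.WalkDefs

set_option autoImplicit false

namespace Pool.Agent.Helper27

/-- `IsCut b L`: the list `L` of naturals has length `b`, its `r`-th entry is congruent to `r`
modulo `b`, and consecutive entries (cyclically) never drop by more than `b - 1`. -/
def IsCut (b : ℕ) (L : List ℕ) : Prop :=
  L.length = b ∧ (∀ r < b, L.getD r 0 % b = r) ∧
    (∀ r < b, L.getD r 0 ≤ L.getD ((r + 1) % b) 0 + (b - 1))

/-- no entry of `L` is congruent to `a` modulo `q` -/
def Misses (L : List ℕ) (q a : ℕ) : Prop := ∀ x ∈ L, x % q ≠ a % q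

def list2 : List ℕ := [0, 1]
def list4 : List ℕ := [0, 9, 6, 3]
def list8 : List ℕ := [0, 1, 10, 3, 12, 13, 6, 7]
def list16 : List ℕ := [48, 65, 98, 83, 68, 69, 54, 39, 24, 9, 42, 59, 60, 45, 30, 47]
def list256 : List ℕ := [
  2304, 2561, 3074, 2819, 2820, 2565, 2310, 2567, 2312, 2057, 2570, 2315, 2060, 1805, 1806,
  2319, 2064, 1809, 2066, 1811, 1556, 1301, 1046, 791, 792, 537, 794, 539, 540, 285, 542,
  1311, 1056, 1569, 1314, 1059, 804, 549, 806, 807, 552, 297, 42, 555, 300, 45, 302, 815, 560,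
  561, 306, 819, 1076, 1077, 822, 1079, 1080, 825, 570, 315, 572, 317, 62, 575, 576, 321,
  1346, 1091, 1092, 1349, 1094, 839, 584, 329, 330, 587, 332, 845, 590, 335, 1104, 1617, 2130,
  1875, 2900, 2645, 2390, 2135, 2136, 1881, 1626, 1371, 1884, 1629, 1374, 1631, 1632, 1377,
  1122, 1379, 1380, 1125, 870, 1127, 1896, 2409, 2666, 2411, 2156, 2157, 1902, 3695, 3696,
  4209, 3954, 3699, 3956, 3701, 3446, 3447, 3192, 3705, 3450, 4731, 4476, 4221, 4734, 4479,
  4224, 3969, 4226, 3971, 3716, 3717, 3974, 3975, 3720, 3465, 3722, 3467, 3212, 2957, 2702,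
  3215, 3984, 3729, 4754, 4755, 4500, 4245, 3990, 4247, 3992, 3737, 4250, 3995, 3740, 3485,
  3230, 2975, 3744, 3489, 3234, 3747, 4004, 4005, 4262, 4007, 4520, 4265, 4266, 4011, 4524,
  4269, 4014, 3759, 4016, 4017, 3762, 4019, 3764, 3509, 3254, 2999, 2744, 3257, 3002, 2747,
  3260, 3005, 2750, 3519, 3264, 3521, 3522, 4035, 4292, 4037, 3782, 3527, 4040, 3785, 3530,
  3275, 4044, 3789, 3534, 3279, 3536, 3281, 3026, 2771, 2516, 3029, 2774, 2519, 2264, 2009,
  2522, 3291, 3036, 3549, 3806, 3551, 3296, 3041, 2786, 2787, 2532, 2277, 2022, 2535, 2280,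
  2025, 1770, 1515, 2540, 2541, 3054, 2799, 2544, 2289, 2802, 3059, 3060, 2805, 2550, 2295,
  2040, 2297, 2042, 1787, 1532, 2045, 2046, 1791]

def offs256 : List (ℕ × ℕ) := [
  (3, 1), (5, 3), (7, 4), (11, 6), (13, 8), (17, 1), (19, 18), (23, 6), (29, 26), (31, 4),
  (37, 13), (41, 29), (43, 37), (47, 37), (53, 13), (59, 10), (61, 28), (67, 60), (71, 53),
  (73, 7), (79, 30), (83, 7), (89, 4), (97, 68), (101, 21), (103, 13), (107, 1), (109, 17),
  (113, 41), (127, 2), (131, 2), (137, 14), (139, 0), (149, 0), (151, 1), (157, 2), (163, 5),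
  (167, 0), (173, 1), (179, 7), (181, 14), (191, 1), (193, 2), (197, 7), (199, 3), (211, 11),
  (223, 4), (227, 0), (229, 1), (233, 5), (239, 1), (241, 0), (251, 4)]

instance (b : ℕ) (L : List ℕ) : Decidable (IsCut b L) := by unfold IsCut; infer_instance
instance (L : List ℕ) (q a : ℕ) : Decidable (Misses L q a) := by unfold Misses; infer_instance

theorem cut2 : IsCut 2 list2 := by decide +kernel
theorem cut4 : IsCut 4 list4 := by decide +kernel
theorem cut8 : IsCut 8 list8 := by decide +kernel
theorem cut16 : IsCut 16 list16 := by decide +kernel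
theorem cut256 : IsCut 256 list256 := by decide +kernel

theorem offs256_ok : ∀ p ∈ offs256, Misses list256 p.1 p.2 := by decide +kernel

theorem offs256_complete : ∀ q < 257, q < 3 ∨ (∃ d < q, 2 ≤ d ∧ q % d = 0) ∨
    q ∈ offs256.map Prod.fst := by decide +kernel

/-- pigeonhole: a list shorter than `q` misses a residue class modulo `q` -/
theorem misses_of_length_lt (L : List ℕ) (q : ℕ) (hq : L.length < q) :
    ∃ a < q, Misses L q a := by
  classical
  by_contra hcon
  push Not at hcon
  have hsub : Finset.range q ⊆ (L.map (fun x => x % q)).toFinset := by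
    intro a ha
    have h := hcon a (Finset.mem_range.1 ha)
    unfold Misses at h
    push Not at h
    obtain ⟨x, hx, hxa⟩ := h
    rw [List.mem_toFinset, List.mem_map]
    exact ⟨x, hx, by rw [hxa, Nat.mod_eq_of_lt (Finset.mem_range.1 ha)]⟩
  have h1 := Finset.card_le_card hsub
  have h2 : (L.map (fun x => x % q)).toFinset.card ≤ L.length := by
    have := List.toFinset_card_le (L.map (fun x => x % q))
    simpa using this
  rw [Finset.card_range] at h1
  omega

theorem adm256 (q : ℕ) (hq : q.Prime) (hq2 : q ≠ 2) : ∃ a, Misses list256 q a := by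
  by_cases h : q < 257
  · rcases offs256_complete q h with h1 | ⟨d, hd, hd2, hqd⟩ | h1
    · have := hq.two_le
      omega
    · exfalso
      have hdv : d ∣ q := Nat.dvd_of_mod_eq_zero hqd
      rcases (Nat.dvd_prime hq).1 hdv with h | h <;> omega
    · obtain ⟨p, hp, hpq⟩ := List.mem_map.1 h1
      refine ⟨p.2, ?_⟩
      have := offs256_ok p hp
      rwa [hpq] at this
  · obtain ⟨a, _, ha⟩ := misses_of_length_lt list256 q (by
      rw [cut256.1]
      omega)
    exact ⟨a, ha⟩

theorem adm_small (L : List ℕ) (b : ℕ) (hL : L.length = b)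
    (h : ∀ q < b + 1, q < 3 ∨ (∃ d < q, 2 ≤ d ∧ q % d = 0) ∨ ∃ a < q, Misses L q a)
    (q : ℕ) (hq : q.Prime) (hq2 : q ≠ 2) : ∃ a, Misses L q a := by
  by_cases hqb : q < b + 1
  · rcases h q hqb with h1 | ⟨d, hd, hd2, hqd⟩ | ⟨a, _, ha⟩
    · have := hq.two_le
      omega
    · exfalso
      have hdv : d ∣ q := Nat.dvd_of_mod_eq_zero hqd
      rcases (Nat.dvd_prime hq).1 hdv with h | h <;> omega
    · exact ⟨a, ha⟩
  · obtain ⟨a, _, ha⟩ := misses_of_length_lt L q (by omega)
    exact ⟨a, ha⟩

theorem adm2 (q : ℕ) (hq : q.Prime) (hq2 : q ≠ 2) : ∃ a, Misses list2 q a :=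
  adm_small list2 2 rfl (by decide +kernel) q hq hq2
theorem adm4 (q : ℕ) (hq : q.Prime) (hq2 : q ≠ 2) : ∃ a, Misses list4 q a :=
  adm_small list4 4 rfl (by decide +kernel) q hq hq2
theorem adm8 (q : ℕ) (hq : q.Prime) (hq2 : q ≠ 2) : ∃ a, Misses list8 q a :=
  adm_small list8 8 rfl (by decide +kernel) q hq hq2
theorem adm16 (q : ℕ) (hq : q.Prime) (hq2 : q ≠ 2) : ∃ a, Misses list16 q a :=
  adm_small list16 16 rfl (by decide +kernel) q hq hq2

/-- A sequence with steps `1` or `b` that starts below a cut must hit it. -/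
theorem crossing (b : ℕ) (hb : 1 ≤ b) (L : List ℕ) (hL : IsCut b L) (τ : ℕ → ℤ)
    (hτ : ∀ n, τ (n + 1) - τ n = 1 ∨ τ (n + 1) - τ n = b) (t0 : ℤ) (h0 : τ 0 < t0) :
    ∃ n : ℕ, ∃ x ∈ L, τ n = t0 + x := by
  obtain ⟨hlen, hmod, hdrop⟩ := hL
  by_contra hcon
  push Not at hcon
  have hbpos : (0 : ℤ) < b := by exact_mod_cast hb
  -- residue of a position
  set ρ : ℤ → ℕ := fun t => ((t - t0) % b).toNat with hρ
  have hρlt : ∀ t, ρ t < b := by
    intro t
    have h1 := Int.emod_nonneg (t - t0) hbpos.ne'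
    have h2 := Int.emod_lt_of_pos (t - t0) hbpos
    simp only [hρ]
    omega
  have hρcast : ∀ t, ((ρ t : ℕ) : ℤ) = (t - t0) % b := by
    intro t
    exact Int.toNat_of_nonneg (Int.emod_nonneg _ hbpos.ne')
  have hmem : ∀ r < b, L.getD r 0 ∈ L := by
    intro r hr
    rw [List.getD_eq_getElem _ _ (by omega)]
    exact List.getElem_mem _
  have hbefore : ∀ n, τ n - t0 < L.getD (ρ (τ n)) 0 := by
    intro n
    induction n with
    | zero =>
      have : (0 : ℤ) ≤ (L.getD (ρ (τ 0)) 0 : ℕ) := by positivity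
      omega
    | succ n ih =>
      have hne := hcon (n + 1) _ (hmem (ρ (τ (n + 1))) (hρlt _))
      have hr := hρlt (τ n)
      have hcast := hρcast (τ n)
      have hmodr := hmod (ρ (τ n)) hr
      have hcast' := hρcast (τ (n + 1))
      have hmodr' := hmod (ρ (τ (n + 1))) (hρlt _)
      -- residues as integer congruences
      have e1 : ((L.getD (ρ (τ n)) 0 : ℕ) : ℤ) % b = (τ n - t0) % b := by
        rw [← hcast]
        exact_mod_cast hmodr
      have e2 : ((L.getD (ρ (τ (n + 1))) 0 : ℕ) : ℤ) % b = (τ (n + 1) - t0) % b := by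
        rw [← hcast']
        exact_mod_cast hmodr'
      have d1 : (b : ℤ) ∣ ((L.getD (ρ (τ n)) 0 : ℕ) : ℤ) - (τ n - t0) :=
        Int.ModEq.dvd (show (τ n - t0) ≡ _ [ZMOD b] from e1.symm)
      have d2 : (b : ℤ) ∣ ((L.getD (ρ (τ (n + 1))) 0 : ℕ) : ℤ) - (τ (n + 1) - t0) :=
        Int.ModEq.dvd (show (τ (n + 1) - t0) ≡ _ [ZMOD b] from e2.symm)
      -- the current element is at least b below the blocked one
      obtain ⟨z, hz⟩ := d1
      have hz1 : 1 ≤ z := by
        by_contra hcz
        push Not at hcz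
        have : z ≤ 0 := by omega
        have : (b : ℤ) * z ≤ 0 := by nlinarith
        omega
      have hge : (b : ℤ) ≤ ((L.getD (ρ (τ n)) 0 : ℕ) : ℤ) - (τ n - t0) := by
        rw [hz]
        nlinarith
      have hle : τ (n + 1) - t0 ≤ ((L.getD (ρ (τ (n + 1))) 0 : ℕ) : ℤ) := by
        rcases hτ n with hstep | hstep
        · -- step one
          have hnext : ρ (τ (n + 1)) = (ρ (τ n) + 1) % b := by
            have : ((ρ (τ (n + 1)) : ℕ) : ℤ) = (((ρ (τ n) + 1) % b : ℕ) : ℤ) := by
              rw [hcast']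
              push_cast
              rw [hcast]
              have : τ (n + 1) - t0 = (τ n - t0) + 1 := by omega
              rw [this, Int.emod_add_emod]
            exact_mod_cast this
          have hd := hdrop (ρ (τ n)) hr
          rw [← hnext] at hd
          have hd' : ((L.getD (ρ (τ n)) 0 : ℕ) : ℤ) ≤
              ((L.getD (ρ (τ (n + 1))) 0 : ℕ) : ℤ) + (b - 1) := by
            have : ((b - 1 : ℕ) : ℤ) = (b : ℤ) - 1 := by
              push_cast [Nat.cast_sub hb]
              ring
            rw [← this]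
            exact_mod_cast hd
          omega
        · -- step b
          have hsame : ρ (τ (n + 1)) = ρ (τ n) := by
            have : ((ρ (τ (n + 1)) : ℕ) : ℤ) = ((ρ (τ n) : ℕ) : ℤ) := by
              rw [hcast', hcast]
              have : τ (n + 1) - t0 = (τ n - t0) + b := by omega
              rw [this, Int.add_emod_right]
            exact_mod_cast this
          rw [hsame]
          omega
      rcases lt_or_eq_of_le hle with h | h
      · exact h
      · exfalso
        apply hne
        omega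
  -- the sequence is unbounded
  have hgrow : ∀ n : ℕ, τ 0 + n ≤ τ n := by
    intro n
    induction n with
    | zero => simp
    | succ n ih =>
      rcases hτ n with h | h
      · push_cast
        omega
      · have : (1 : ℤ) ≤ b := by exact_mod_cast hb
        push_cast
        omega
  -- bound for the list
  obtain ⟨B, hB⟩ : ∃ B : ℕ, ∀ x ∈ L, x ≤ B := by
    refine ⟨L.sum, fun x hx => List.single_le_sum (by simp) x hx⟩
  have h1 := hbefore ((t0 + B - τ 0).toNat)
  have h2 := hgrow ((t0 + B - τ 0).toNat)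
  have h3 := hB _ (hmem (ρ (τ ((t0 + B - τ 0).toNat))) (hρlt _))
  have h4 : ((t0 + B - τ 0).toNat : ℤ) = t0 + B - τ 0 := Int.toNat_of_nonneg (by omega)
  have h5 : ((L.getD (ρ (τ ((t0 + B - τ 0).toNat))) 0 : ℕ) : ℤ) ≤ B := by exact_mod_cast h3
  omega

/-- Simultaneous congruences modulo a finite set of primes. -/
theorem crt_primes (S : Finset ℕ) (hS : ∀ q ∈ S, q.Prime) (ρ : ℕ → ℤ) (K : ℤ) :
    ∃ t : ℤ, K < t ∧ ∀ q ∈ S, (q : ℤ) ∣ t - ρ q := by
  classical
  induction S using Finset.induction_on with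
  | empty => exact ⟨K + 1, by omega, by simp⟩
  | insert p S hp ih =>
    obtain ⟨t, hK, ht⟩ := ih (fun q hq => hS q (Finset.mem_insert_of_mem hq))
    set P : ℤ := ∏ s ∈ S, (s : ℤ) with hP
    have hPpos : 0 < P := by
      apply Finset.prod_pos
      intro s hs
      have := (hS s (Finset.mem_insert_of_mem hs)).pos
      exact_mod_cast this
    have hpp := hS p (Finset.mem_insert_self _ _)
    have hcop : IsCoprime P (p : ℤ) := by
      apply IsCoprime.prod_left
      intro s hs
      apply Nat.isCoprime_iff_coprime.2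
      apply (Nat.coprime_primes (hS s (Finset.mem_insert_of_mem hs)) hpp).2
      intro h
      exact hp (h ▸ hs)
    obtain ⟨x, y, hxy⟩ := hcop
    set z : ℤ := -(t - ρ p) * x with hz
    set l : ℤ := z + |z| * (p : ℤ) with hl
    have hp1 : (1 : ℤ) ≤ p := by exact_mod_cast hpp.pos
    have hl0 : 0 ≤ l := by
      have h1 := abs_nonneg z
      have h2 := neg_abs_le z
      nlinarith
    refine ⟨t + P * l, ?_, ?_⟩
    · have : 0 ≤ P * l := by positivity
      linarith
    · intro q hq
      rcases Finset.mem_insert.1 hq with rfl | hqS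
      · have e : t + P * l - ρ q = (q : ℤ) * ((t - ρ q) * y + P * |z|) := by
          have : t - ρ q = (t - ρ q) * (x * P + y * (q : ℤ)) := by rw [hxy]; ring
          rw [hl, hz]
          linear_combination this
        rw [e]
        exact Dvd.intro _ rfl
      · have h1 := ht q hqS
        have h2 : (q : ℤ) ∣ P := by
          rw [hP]
          exact Finset.dvd_prod_of_mem (fun s : ℕ => (s : ℤ)) hqS
        have e : t + P * l - ρ q = (t - ρ q) + P * l := by ring
        rw [e]
        exact dvd_add h1 (Dvd.dvd.mul_right h2 _)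

/-- Eventually periodic walks with steps `2 ^ u` and `2 ^ u * b` hit infinitely many primes as
soon as there is an admissible cut for `b`. -/
theorem periodic_hits (u b : ℕ) (hu : 1 ≤ u) (hb : 1 ≤ b) (L : List ℕ) (hL : IsCut b L)
    (hadm : ∀ q : ℕ, q.Prime → q ≠ 2 → ∃ a, Misses L q a)
    (k : ℤ) (hk : Odd k) (A : ℕ → ℤ) (hA : IsWalk (2 ^ u) (2 ^ u * b) k A)
    (hper : ∃ N T : ℕ, 0 < T ∧ ∀ n : ℕ, N ≤ n → A (n + T + 1) - A (n + T) = A (n + 1) - A n) :
    {n : ℕ | IsPosPrime (A n)}.Infinite := by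
  obtain ⟨N, T, hT, hp⟩ := hper
  obtain ⟨hA0, hstep⟩ := hA
  have h2u : (0 : ℤ) < 2 ^ u := by positivity
  have hbpos : (1 : ℤ) ≤ b := by exact_mod_cast hb
  have hinc : ∀ n, A n + 1 ≤ A (n + 1) := by
    intro n
    rcases hstep n with h | h
    · omega
    · have : (0 : ℤ) < 2 ^ u * b := by positivity
      omega
  have hmono : StrictMono A := strictMono_nat_of_lt_succ (fun n => by have := hinc n; omega)
  have hodd : ∀ n, Odd (A n) := by
    intro n
    induction n with
    | zero => rw [hA0]; exact hk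
    | succ n ih =>
      have hev : Even (A (n + 1) - A n) := by
        have h2 : Even ((2 : ℤ) ^ u) := by
          rw [Int.even_pow]
          exact ⟨even_two, by omega⟩
        rcases hstep n with h | h
        · rw [h]
          exact h2
        · rw [h]
          exact h2.mul_right _
      have : A (n + 1) = A n + (A (n + 1) - A n) := by ring
      rw [this]
      exact ih.add_even hev
  -- displacement of one period
  set D : ℤ := A (N + T) - A N with hD
  have hDpos : 0 < D := by
    have := hmono (show N < N + T by omega)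
    omega
  have hshift : ∀ n, N ≤ n → A (n + T) = A n + D := by
    intro n hn
    induction n, hn using Nat.le_induction with
    | base => omega
    | succ n hn ih =>
      have h1 := hp n hn
      have h2 : n + 1 + T = n + T + 1 := by omega
      rw [h2]
      omega
  have hshift' : ∀ n, N ≤ n → ∀ s : ℕ, A (n + T * s) = A n + D * s := by
    intro n hn s
    induction s with
    | zero => simp
    | succ s ih =>
      have h2 : n + T * (s + 1) = (n + T * s) + T := by ring
      rw [h2, hshift _ (by omega), ih]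
      push_cast
      ring
  -- scaled coordinates
  have hdvd : ∀ n, (2 : ℤ) ^ u ∣ A (N + n) - A N := by
    intro n
    induction n with
    | zero => simp
    | succ n ih =>
      have h1 : (2 : ℤ) ^ u ∣ A (N + n + 1) - A (N + n) := by
        rcases hstep (N + n) with h | h
        · rw [h]
        · rw [h]
          exact Dvd.intro _ rfl
      have h2 : A (N + (n + 1)) - A N = (A (N + n + 1) - A (N + n)) + (A (N + n) - A N) := by
        rw [← add_assoc]
        ring
      rw [h2]
      exact dvd_add h1 ih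
  choose τ hτ using hdvd
  have hτ0 : τ 0 = 0 := by
    have := hτ 0
    rw [add_zero, sub_self] at this
    rcases mul_eq_zero.1 this.symm with h | h
    · exact absurd h h2u.ne'
    · exact h
  have hτstep : ∀ n, τ (n + 1) - τ n = 1 ∨ τ (n + 1) - τ n = b := by
    intro n
    have h1 : 2 ^ u * (τ (n + 1) - τ n) = A (N + n + 1) - A (N + n) := by
      have e1 := hτ (n + 1)
      have e2 := hτ n
      rw [← add_assoc] at e1
      linear_combination e2 - e1
    rcases hstep (N + n) with h | h
    · left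
      rw [h] at h1
      have : (2 : ℤ) ^ u * (τ (n + 1) - τ n) = 2 ^ u * 1 := by rw [h1]; ring
      exact mul_left_cancel₀ h2u.ne' this
    · right
      rw [h] at h1
      exact mul_left_cancel₀ h2u.ne' h1
  -- the residues to be used
  set S : Finset ℕ := D.natAbs.primeFactors.erase 2 with hS
  have hSp : ∀ q ∈ S, q.Prime ∧ q ≠ 2 := by
    intro q hq
    rw [hS, Finset.mem_erase] at hq
    exact ⟨Nat.prime_of_mem_primeFactors hq.2, hq.1⟩
  have hres : ∀ q : ℕ, ∃ ρ : ℤ, q ∈ S → ∀ t : ℤ, (q : ℤ) ∣ t - ρ →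
      ∀ x ∈ L, ¬ (q : ℤ) ∣ A N + 2 ^ u * (t + x) := by
    intro q
    by_cases hq : q ∈ S
    · obtain ⟨hqp, hq2⟩ := hSp q hq
      obtain ⟨a, ha⟩ := hadm q hqp hq2
      have hcop : IsCoprime ((2 : ℤ) ^ u) (q : ℤ) := by
        apply IsCoprime.pow_left
        have : Nat.Coprime 2 q := (Nat.coprime_primes Nat.prime_two hqp).2 (fun h => hq2 h.symm)
        exact_mod_cast Nat.isCoprime_iff_coprime.2 this
      obtain ⟨v, w, hvw⟩ := hcop
      refine ⟨-a - A N * v, fun _ t ht x hx hdiv => ?_⟩
      have h1 : (q : ℤ) ∣ 2 ^ u * ((x : ℤ) - a) := by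
        obtain ⟨y, hy⟩ := ht
        obtain ⟨z, hz⟩ := hdiv
        have : 2 ^ u * ((x : ℤ) - a) = (q : ℤ) * (z - 2 ^ u * y - A N * w) := by
          have e1 : t = -a - A N * v + q * y := by linear_combination hy
          rw [e1] at hz
          linear_combination hz + A N * hvw
        rw [this]
        exact Dvd.intro _ rfl
      have hcop2 : IsCoprime (q : ℤ) ((2 : ℤ) ^ u) := ⟨w, v, by linear_combination hvw⟩
      have h2 : (q : ℤ) ∣ (x : ℤ) - a := hcop2.dvd_of_dvd_mul_left h1
      have h3 : (a : ℤ) ≡ x [ZMOD q] := Int.modEq_iff_dvd.2 h2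
      have h4 : a ≡ x [MOD q] := (Int.natCast_modEq_iff).1 h3
      exact ha x hx h4.symm
    · exact ⟨0, fun h => absurd h hq⟩
  choose ρ hρ using hres
  obtain ⟨t, htpos, ht⟩ := crt_primes S (fun q hq => (hSp q hq).1) ρ 0
  obtain ⟨n, x, hx, hn⟩ := crossing b hb L hL τ hτstep t (by rw [hτ0]; exact htpos)
  -- the walk visits a term coprime to the displacement
  have hAn : A (N + n) = A N + 2 ^ u * (t + x) := by
    have := hτ n
    rw [hn] at this
    linear_combination this
  have hcop : IsCoprime (A (N + n)) (D.natAbs : ℤ) := by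
    rw [Int.isCoprime_iff_gcd_eq_one]
    by_contra hne
    obtain ⟨q, hq, hqd⟩ := Nat.exists_prime_and_dvd hne
    have h1 : (q : ℤ) ∣ A (N + n) :=
      dvd_trans (Int.natCast_dvd_natCast.2 hqd) (Int.gcd_dvd_left _ _)
    have h2 : (q : ℤ) ∣ (D.natAbs : ℤ) :=
      dvd_trans (Int.natCast_dvd_natCast.2 hqd) (Int.gcd_dvd_right _ _)
    have h2' : q ∣ D.natAbs := Int.natCast_dvd_natCast.1 h2
    by_cases hq2 : q = 2
    · subst hq2
      have := hodd (N + n)
      rw [← Int.not_even_iff_odd] at this
      exact this (even_iff_two_dvd.2 h1)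
    · have hqS : q ∈ S := by
        rw [hS, Finset.mem_erase]
        refine ⟨hq2, ?_⟩
        rw [Nat.mem_primeFactors]
        exact ⟨hq, h2', by omega⟩
      apply hρ q hqS t (ht q hqS) x hx
      rw [← hAn]
      exact h1
  have hinf : ∀ M : ℕ, ∃ m : ℕ, M < m ∧ IsPosPrime (A m) := by
    intro M
    obtain ⟨p, hpgt, hpp, hpmod⟩ := Nat.forall_exists_prime_gt_and_zmodEq
      (max ((A (N + n)).toNat) ((A (N + n + T * M)).toNat)) (q := D.natAbs)
      (a := A (N + n)) (by omega) hcop
    have hDabs : (D.natAbs : ℤ) = D := Int.natAbs_of_nonneg hDpos.le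
    rw [hDabs] at hpmod
    obtain ⟨z, hz⟩ := Int.ModEq.dvd hpmod.symm
    have h1 : (A (N + n)).toNat < p := lt_of_le_of_lt (le_max_left _ _) hpgt
    have h2 : (A (N + n + T * M)).toNat < p := lt_of_le_of_lt (le_max_right _ _) hpgt
    have h1' : A (N + n) < p := by omega
    have h2' : A (N + n + T * M) < p := by omega
    have hz0 : 0 < z := by
      by_contra hc
      push Not at hc
      have : D * z ≤ 0 := by nlinarith
      omega
    obtain ⟨y, hy⟩ := Int.eq_ofNat_of_zero_le hz0.le
    have hval : A (N + n + T * y) = p := by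
      rw [hshift' (N + n) (by omega) y, ← hy]
      omega
    refine ⟨N + n + T * y, ?_, p, hpp, hval⟩
    rw [← hval] at h2'
    have h3 := hmono.lt_iff_lt.1 h2'
    have h4 : M ≤ T * M := Nat.le_mul_of_pos_left M hT
    omega
  rw [Set.infinite_iff_exists_gt]
  intro M
  obtain ⟨m, hm, hpm⟩ := hinf M
  exact ⟨m, hpm, hm⟩

end Pool.Agent.Helper27
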