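import Mathlib

set_option autoImplicit false

namespace Pool.Agent.Helper27

/-- `2 ^ w + 1` is a prime, or `w = 3`, or it has two distinct prime factors. -/
theorem two_primes_or (w : ℕ) (hw : 1 ≤ w) :
    (2 ^ w + 1).Prime ∨ w = 3 ∨
      ∃ p q : ℕ, p.Prime ∧ q.Prime ∧ p ≠ q ∧ p ∣ 2 ^ w + 1 ∧ q ∣ 2 ^ w + 1 := by
  by_cases hpp : IsPrimePow (2 ^ w + 1)
  · obtain ⟨p, e, hp, he, hpe⟩ := (isPrimePow_nat_iff _).1 hpp
    have hpodd : Odd p := by
      rcases hp.eq_two_or_odd' with h | h
      · exfalso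
        subst h
        have h1 : 2 ∣ 2 ^ e := dvd_pow_self 2 (by omega)
        rw [hpe] at h1
        have h2 : 2 ∣ 2 ^ w := dvd_pow_self 2 (by omega)
        have := (Nat.dvd_add_right h2).1 h1
        omega
      · exact h
    rcases Nat.even_or_odd e with hev | hod
    · -- even exponent: w = 3
      right; left
      obtain ⟨f, hf⟩ := hev
      have hf1 : 1 ≤ f := by omega
      set y := p ^ f with hy
      have hy3 : 3 ≤ y := by
        have h3 : 3 ≤ p := by
          have := hp.two_le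
          rcases hpodd with ⟨r, hr⟩
          omega
        calc 3 ≤ p := h3
          _ = p ^ 1 := (pow_one p).symm
          _ ≤ p ^ f := Nat.pow_le_pow_right (by omega) hf1
      have hyy : y * y = 2 ^ w + 1 := by
        rw [hy, ← pow_add, ← hf, hpe]
      have hfac : (y - 1) * (y + 1) = 2 ^ w := by
        obtain ⟨z, hz⟩ : ∃ z, y = z + 1 := ⟨y - 1, by omega⟩
        rw [hz] at hyy ⊢
        have : z + 1 - 1 = z := by omega
        rw [this]
        nlinarith
      have h1 : (y - 1) ∣ 2 ^ w := ⟨_, hfac.symm⟩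
      have h2 : (y + 1) ∣ 2 ^ w := ⟨y - 1, by rw [mul_comm]; exact hfac.symm⟩
      obtain ⟨a, _, ha⟩ := (Nat.dvd_prime_pow Nat.prime_two).1 h1
      obtain ⟨c, _, hc⟩ := (Nat.dvd_prime_pow Nat.prime_two).1 h2
      have hlt : a < c := by
        by_contra hcon
        push Not at hcon
        have : 2 ^ c ≤ 2 ^ a := Nat.pow_le_pow_right (by omega) hcon
        omega
      have hdvd : 2 ^ a ∣ 2 ^ c := pow_dvd_pow 2 hlt.le
      have h2a : 2 ^ a ∣ 2 := by
        have e1 : 2 ^ c = 2 ^ a + 2 := by omega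
        rw [e1] at hdvd
        exact (Nat.dvd_add_right (dvd_refl _)).1 hdvd
      have hle : 2 ^ a ≤ 2 := Nat.le_of_dvd (by norm_num) h2a
      have hy' : y = 3 := by omega
      rw [hy'] at hyy
      have h8 : 2 ^ w = 2 ^ 3 := by omega
      exact Nat.pow_right_injective (le_refl 2) h8
    · -- odd exponent
      by_cases he1 : e = 1
      · left
        rw [he1, pow_one] at hpe
        rw [← hpe]
        exact hp
      · exfalso
        have he3 : 3 ≤ e := by
          rcases hod with ⟨r, hr⟩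
          omega
        have hgs : (∑ i ∈ Finset.range e, p ^ i) * (p - 1) = p ^ e - 1 := by
          have h := geom_sum_mul_add (p - 1) e
          have hp1 : p - 1 + 1 = p := by have := hp.two_le; omega
          rw [hp1] at h
          omega
        have hdv : (∑ i ∈ Finset.range e, p ^ i) ∣ 2 ^ w := by
          refine ⟨p - 1, ?_⟩
          rw [hgs, hpe]
          simp
        obtain ⟨a, _, ha⟩ := (Nat.dvd_prime_pow Nat.prime_two).1 hdv
        have hodd : Odd (∑ i ∈ Finset.range e, p ^ i) := by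
          rw [Finset.odd_sum_iff_odd_card_odd]
          have : (Finset.range e).filter (fun x => Odd (p ^ x)) = Finset.range e := by
            apply Finset.filter_true_of_mem
            intro x _
            exact hpodd.pow
          rw [this, Finset.card_range]
          exact hod
        have ha0 : a = 0 := by
          by_contra hne
          rw [ha] at hodd
          have : Even (2 ^ a) := (Nat.even_pow.2 ⟨even_two, hne⟩)
          exact (Nat.not_even_iff_odd.2 hodd) this
        rw [ha0, pow_zero] at ha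
        have hbig : 1 < ∑ i ∈ Finset.range e, p ^ i := by
          have hsub : ∑ i ∈ Finset.range 2, p ^ i ≤ ∑ i ∈ Finset.range e, p ^ i :=
            Finset.sum_le_sum_of_subset (Finset.range_mono (by omega))
          have : ∑ i ∈ Finset.range 2, p ^ i = 1 + p := by
            simp [Finset.sum_range_succ]
          have := hp.two_le
          omega
        omega
  · right; right
    have hN : 2 ^ w + 1 ≠ 1 := by
      have : 0 < 2 ^ w := by positivity
      omega
    obtain ⟨p, hp, hpd⟩ := Nat.exists_prime_and_dvd hN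
    rw [isPrimePow_iff_unique_prime_dvd] at hpp
    by_contra hcon
    push Not at hcon
    apply hpp
    refine ⟨p, ⟨hp, hpd⟩, ?_⟩
    intro q hq
    by_contra hne
    exact hcon p q hp hq.1 (fun h => hne h.symm) hpd hq.2

/-- For odd `m ≥ 5` the number `2 ^ (3 m) + 1` is divisible by `3` and by two further primes. -/
theorem three_primes (m : ℕ) (hm : Odd m) (h5 : 5 ≤ m) :
    ∃ p q : ℕ, p.Prime ∧ q.Prime ∧ p ≠ 3 ∧ q ≠ 3 ∧ p ≠ q ∧ 3 ∣ 2 ^ (3 * m) + 1 ∧
      p ∣ 2 ^ (3 * m) + 1 ∧ q ∣ 2 ^ (3 * m) + 1 := by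
  have h3 : 3 ∣ 2 ^ m + 1 := by
    have := hm.nat_add_dvd_pow_add_pow 2 1
    simpa using this
  obtain ⟨y, hy⟩ := h3
  have hpow : 2 ^ 5 ≤ 2 ^ m := Nat.pow_le_pow_right (by norm_num) h5
  have hy2 : 2 ≤ y := by omega
  -- the identity
  have hid : 2 ^ (3 * m) + 1 = (3 * y) * (3 * (3 * y * (y - 1) + 1)) := by
    have e1 : 2 ^ (3 * m) = (2 ^ m) ^ 3 := by rw [← pow_mul, mul_comm]
    obtain ⟨z, hz⟩ : ∃ z, y = z + 1 := ⟨y - 1, by omega⟩
    have e2 : 2 ^ m = 3 * z + 2 := by omega
    rw [e1, e2, hz]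
    have : z + 1 - 1 = z := by omega
    rw [this]
    ring
  -- a prime factor of 2^m+1 different from 3
  have hp : ∃ p : ℕ, p.Prime ∧ p ≠ 3 ∧ p ∣ 2 ^ m + 1 := by
    rcases two_primes_or m (by omega) with h | h | ⟨p, q, hp, hq, hpq, hpd, hqd⟩
    · exfalso
      have : 3 ∣ 2 ^ m + 1 := ⟨y, hy⟩
      have := (Nat.prime_dvd_prime_iff_eq Nat.prime_three h).1 this
      omega
    · omega
    · by_cases hp3 : p = 3
      · exact ⟨q, hq, fun h => hpq (hp3.trans h.symm), hqd⟩
      · exact ⟨p, hp, hp3, hpd⟩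
  obtain ⟨p, hp, hp3, hpd⟩ := hp
  have hM : 3 * y * (y - 1) + 1 ≠ 1 := by
    have : 0 < 3 * y * (y - 1) := by
      apply Nat.mul_pos
      · omega
      · omega
    omega
  obtain ⟨q, hq, hqd⟩ := Nat.exists_prime_and_dvd hM
  have hqn : ¬ q ∣ 3 * y := by
    intro h
    have h1 : q ∣ 3 * y * (y - 1) := Dvd.dvd.mul_right h _
    have h2 : q ∣ 1 := (Nat.dvd_add_right h1).1 hqd
    exact hq.one_lt.ne' (Nat.dvd_one.1 h2)
  refine ⟨p, q, hp, hq, hp3, ?_, ?_, ?_, ?_, ?_⟩
  · intro h
    exact hqn (h ▸ Dvd.intro y rfl)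
  · intro h
    rw [hy] at hpd
    exact hqn (h ▸ hpd)
  · rw [hid]
    exact ⟨y * (3 * (3 * y * (y - 1) + 1)), by ring⟩
  · rw [hid]
    rw [hy] at hpd
    exact Dvd.dvd.mul_right hpd _
  · rw [hid]
    exact Dvd.dvd.mul_left (Dvd.dvd.mul_left hqd 3) _

end Pool.Agent.Helper27
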