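import Mathlib
import Pool.Agent.Helper27.WalkDefs
import Pool.Agent.Helper27.TwoPowPrimes

set_option autoImplicit false

namespace Pool.Agent.Helper27

/-- A large odd starting point with prescribed residues modulo distinct odd primes. -/
theorem exists_start (T : ℕ) (q : ℕ → ℕ) (hq : ∀ s < T, (q s).Prime ∧ q s ≠ 2)
    (hinj : ∀ s < T, ∀ t < T, q s = q t → s = t) (c : ℕ → ℤ) (K : ℤ) :
    ∃ k : ℤ, K ≤ k ∧ Odd k ∧ ∀ s < T, (q s : ℤ) ∣ k + c s := by
  induction T with
  | zero =>
    refine ⟨2 * |K| + 1, ?_, ⟨|K|, rfl⟩, fun s hs => absurd hs (Nat.not_lt_zero s)⟩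
    have := le_abs_self K
    have := abs_nonneg K
    linarith
  | succ T ih =>
    obtain ⟨k, hK, hodd, hk⟩ := ih (fun s hs => hq s (by omega))
      (fun s hs t ht h => hinj s (by omega) t (by omega) h)
    set P : ℤ := 2 * ∏ s ∈ Finset.range T, (q s : ℤ) with hP
    have hPpos : 0 < P := by
      have : 0 < ∏ s ∈ Finset.range T, (q s : ℤ) := by
        apply Finset.prod_pos
        intro s hs
        have := (hq s (by have := Finset.mem_range.1 hs; omega)).1.pos
        exact_mod_cast this
      positivity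
    have hcop : IsCoprime P (q T : ℤ) := by
      rw [hP]
      apply IsCoprime.mul_left
      · have h1 := (hq T (by omega)).1
        have h2 := (hq T (by omega)).2
        have : Nat.Coprime 2 (q T) := (Nat.coprime_primes Nat.prime_two h1).2 (fun h => h2 h.symm)
        exact_mod_cast Nat.isCoprime_iff_coprime.2 this
      · apply IsCoprime.prod_left
        intro s hs
        have hsT := Finset.mem_range.1 hs
        apply Nat.isCoprime_iff_coprime.2
        apply (Nat.coprime_primes (hq s (by omega)).1 (hq T (by omega)).1).2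
        intro h
        have := hinj s (by omega) T (by omega) h
        omega
    obtain ⟨x, y, hxy⟩ := hcop
    -- x * P + y * q = 1
    set z : ℤ := -(k + c T) * x with hz
    -- shift to make the multiplier nonnegative
    set l : ℤ := z + |z| * (q T : ℤ) with hl
    have hqT : (1 : ℤ) ≤ q T := by
      have := (hq T (by omega)).1.pos
      exact_mod_cast this
    have hl0 : 0 ≤ l := by
      have h1 := abs_nonneg z
      have h2 := neg_abs_le z
      nlinarith
    refine ⟨k + P * l, ?_, ?_, ?_⟩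
    · have : 0 ≤ P * l := by positivity
      linarith
    · have hev : Even (P * l) := by
        rw [hP]
        exact ⟨(∏ s ∈ Finset.range T, (q s : ℤ)) * l, by ring⟩
      exact hodd.add_even hev
    · intro s hs
      by_cases hsT : s = T
      · subst hsT
        have e : k + P * l + c s = (q s : ℤ) * ((k + c s) * y + P * |z|) := by
          have : k + c s = (k + c s) * (x * P + y * (q s : ℤ)) := by rw [hxy]; ring
          rw [hl, hz]
          linear_combination this
        rw [e]
        exact Dvd.intro _ rfl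
      · have h1 := hk s (by omega)
        have h2 : (q s : ℤ) ∣ P := by
          rw [hP]
          apply Dvd.dvd.mul_left
          exact Finset.dvd_prod_of_mem (fun s => (q s : ℤ)) (Finset.mem_range.2 (by omega))
        have e : k + P * l + c s = (k + c s) + P * l := by ring
        rw [e]
        exact dvd_add h1 (Dvd.dvd.mul_right h2 _)

/-- Main construction: if the displacement of one period is divisible by distinct odd primes,
one for every step of the period, there are prime-free periodic walks. -/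
theorem avoid_of_period (i j : ℤ) (hi : 0 < i) (hj : 0 < j) (T : ℕ) (hT : 0 < T)
    (d : ℕ → ℤ) (hd : ∀ n, d n = i ∨ d n = j) (hper : ∀ n, d (n + T) = d n)
    (q : ℕ → ℕ) (hq : ∀ s < T, (q s).Prime ∧ q s ≠ 2)
    (hinj : ∀ s < T, ∀ t < T, q s = q t → s = t)
    (hdvd : ∀ s < T, (q s : ℤ) ∣ ∑ m ∈ Finset.range T, d m) (K : ℤ) :
    ∃ k : ℤ, K ≤ k ∧ Odd k ∧ ∃ A : ℕ → ℤ, IsWalk i j k A ∧
      (∀ n, A (n + T + 1) - A (n + T) = A (n + 1) - A n) ∧ ∀ n, ¬ IsPosPrime (A n) := by
  set σ : ℕ → ℤ := fun n => ∑ m ∈ Finset.range n, d m with hσ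
  have hσs : ∀ n, σ (n + 1) = σ n + d n := fun n => Finset.sum_range_succ _ _
  have hσT : ∀ n, σ (n + T) = σ n + σ T := by
    intro n
    induction n with
    | zero => simp [hσ]
    | succ n ih =>
      have : n + 1 + T = (n + T) + 1 := by omega
      rw [this, hσs, ih, hσs, hper]
      ring
  have hσ0 : ∀ n, 0 ≤ σ n := by
    intro n
    apply Finset.sum_nonneg
    intro m _
    rcases hd m with h | h <;> rw [h] <;> omega
  -- bound above all the primes
  obtain ⟨k, hK, hodd, hk⟩ := exists_start T q hq hinj σ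
    (max K (1 + ∑ s ∈ Finset.range T, (q s : ℤ)))
  have hK1 : K ≤ k := le_trans (le_max_left _ _) hK
  have hK2 : 1 + ∑ s ∈ Finset.range T, (q s : ℤ) ≤ k := le_trans (le_max_right _ _) hK
  refine ⟨k, hK1, hodd, fun n => k + σ n, ⟨by simp [hσ], ?_⟩, ?_, ?_⟩
  · intro n
    have : k + σ (n + 1) - (k + σ n) = d n := by rw [hσs]; ring
    rw [this]
    exact hd n
  · intro n
    simp only [hσs, hper]
    ring
  · intro n
    -- reduce n modulo T
    have key : ∀ a s : ℕ, σ (s + T * a) = σ s + a * σ T := by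
      intro a s
      induction a with
      | zero => simp
      | succ a ih =>
        have : s + T * (a + 1) = (s + T * a) + T := by ring
        rw [this, hσT, ih]
        push_cast
        ring
    have hs : n % T < T := Nat.mod_lt _ hT
    have hn : σ n = σ (n % T) + (n / T : ℕ) * σ T := by
      rw [← key (n / T) (n % T), Nat.mod_add_div]
    have hdv : (q (n % T) : ℤ) ∣ k + σ n := by
      rw [hn, ← add_assoc]
      exact dvd_add (hk _ hs) (Dvd.dvd.mul_left (hdvd _ hs) _)
    rintro ⟨p, hp, hAp⟩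
    simp only at hAp
    rw [hAp] at hdv
    have h1 : q (n % T) ∣ p := by exact_mod_cast hdv
    have h2 := (Nat.prime_dvd_prime_iff_eq (hq _ hs).1 hp).1 h1
    have h3 : (q (n % T) : ℤ) ≤ ∑ s ∈ Finset.range T, (q s : ℤ) := by
      apply Finset.single_le_sum (f := fun s => (q s : ℤ)) (fun s _ => by positivity)
        (Finset.mem_range.2 hs)
    have h4 := hσ0 n
    have h5 : (q (n % T) : ℤ) = p := by exact_mod_cast h2
    linarith

/-- One odd prime dividing a step gives prime-free walks. -/
theorem avoid_one (i j : ℤ) (hi : 0 < i) (hj : 0 < j) (d : ℤ) (hd : d = i ∨ d = j)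
    (q : ℕ) (hq : q.Prime) (hq2 : q ≠ 2) (hdvd : (q : ℤ) ∣ d) (K : ℤ) :
    ∃ k : ℤ, K ≤ k ∧ Odd k ∧ ∃ A : ℕ → ℤ, IsWalk i j k A ∧
      (∀ n, A (n + 1 + 1) - A (n + 1) = A (n + 1) - A n) ∧ ∀ n, ¬ IsPosPrime (A n) := by
  refine avoid_of_period i j hi hj 1 one_pos (fun _ => d) (fun _ => hd) (fun _ => rfl)
    (fun _ => q) (fun _ _ => ⟨hq, hq2⟩) (fun s hs t ht _ => by omega) ?_ K
  intro s _
  simpa using hdvd

/-- Two distinct odd primes dividing `i + j` give prime-free walks of period two. -/
theorem avoid_two (i j : ℤ) (hi : 0 < i) (hj : 0 < j)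
    (q r : ℕ) (hq : q.Prime) (hq2 : q ≠ 2) (hr : r.Prime) (hr2 : r ≠ 2) (hqr : q ≠ r)
    (hdq : (q : ℤ) ∣ i + j) (hdr : (r : ℤ) ∣ i + j) (K : ℤ) :
    ∃ k : ℤ, K ≤ k ∧ Odd k ∧ ∃ A : ℕ → ℤ, IsWalk i j k A ∧
      (∀ n, A (n + 2 + 1) - A (n + 2) = A (n + 1) - A n) ∧ ∀ n, ¬ IsPosPrime (A n) := by
  refine avoid_of_period i j hi hj 2 two_pos (fun n => if n % 2 = 0 then i else j) ?_ ?_
    (fun n => if n = 0 then q else r) ?_ ?_ ?_ K
  · intro n
    by_cases h : n % 2 = 0 <;> simp [h]
  · intro n
    simp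
  · intro s _
    by_cases h : s = 0 <;> simp [h, hq, hq2, hr, hr2]
  · intro s hs t ht h
    have hs' : s = 0 ∨ s = 1 := by omega
    have ht' : t = 0 ∨ t = 1 := by omega
    rcases hs' with rfl | rfl <;> rcases ht' with rfl | rfl
    · rfl
    · simp at h
      exact absurd h hqr
    · simp at h
      exact absurd h.symm hqr
    · rfl
  · intro s hs
    have hs' : s = 0 ∨ s = 1 := by omega
    rcases hs' with rfl | rfl
    · simpa [Finset.sum_range_succ] using hdq
    · simpa [Finset.sum_range_succ] using hdr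

/-- Three distinct odd primes dividing `d0 + d1 + d2` give prime-free walks of period three. -/
theorem avoid_three (i j : ℤ) (hi : 0 < i) (hj : 0 < j)
    (d0 d1 d2 : ℤ) (h0 : d0 = i ∨ d0 = j) (h1 : d1 = i ∨ d1 = j) (h2 : d2 = i ∨ d2 = j)
    (p q r : ℕ) (hp : p.Prime) (hp2 : p ≠ 2) (hq : q.Prime) (hq2 : q ≠ 2)
    (hr : r.Prime) (hr2 : r ≠ 2) (hpq : p ≠ q) (hpr : p ≠ r) (hqr : q ≠ r)
    (hdp : (p : ℤ) ∣ d0 + d1 + d2) (hdq : (q : ℤ) ∣ d0 + d1 + d2)
    (hdr : (r : ℤ) ∣ d0 + d1 + d2) (K : ℤ) :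
    ∃ k : ℤ, K ≤ k ∧ Odd k ∧ ∃ A : ℕ → ℤ, IsWalk i j k A ∧
      (∀ n, A (n + 3 + 1) - A (n + 3) = A (n + 1) - A n) ∧ ∀ n, ¬ IsPosPrime (A n) := by
  refine avoid_of_period i j hi hj 3 (by norm_num)
    (fun n => if n % 3 = 0 then d0 else if n % 3 = 1 then d1 else d2) ?_ ?_
    (fun n => if n = 0 then p else if n = 1 then q else r) ?_ ?_ ?_ K
  · intro n
    by_cases h : n % 3 = 0
    · simp [h, h0]
    · by_cases h' : n % 3 = 1
      · simp [h', h1]
      · simp [h, h', h2]
  · intro n
    simp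
  · intro s _
    by_cases h : s = 0
    · simp [h, hp, hp2]
    · by_cases h' : s = 1
      · simp [h', hq, hq2]
      · simp [h, h', hr, hr2]
  · intro s hs t ht h
    have hs' : s = 0 ∨ s = 1 ∨ s = 2 := by omega
    have ht' : t = 0 ∨ t = 1 ∨ t = 2 := by omega
    rcases hs' with rfl | rfl | rfl <;> rcases ht' with rfl | rfl | rfl <;> simp at h ⊢
    · exact hpq h
    · exact hpr h
    · exact hpq h.symm
    · exact hqr h
    · exact hpr h.symm
    · exact hqr h.symm
  · intro s hs
    have hs' : s = 0 ∨ s = 1 ∨ s = 2 := by omega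
    rcases hs' with rfl | rfl | rfl
    · simpa [Finset.sum_range_succ] using hdp
    · simpa [Finset.sum_range_succ] using hdq
    · simpa [Finset.sum_range_succ] using hdr

end Pool.Agent.Helper27
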