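import Mathlib
import Pool.Agent.Helper27.WalkDefs
import Pool.Agent.Helper27.TwoPowPrimes
import Pool.Agent.Helper27.WalkAvoid

set_option autoImplicit false

namespace Pool.Agent.Helper27

/-- For distinct positive even steps `i < j`, unless `i = 2 ^ u` is a power of two and
`j / i` is one of `2, 4, 8, 16, 256`, there are arbitrarily large odd starting points with a
prime-free `(i, j)`-walk, and the steps of the walk can be taken periodic with period at most
three. In particular such a pair does not force primes. -/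
theorem ratio (i j : ℤ) (hi : Even i) (_hj : Even j) (h0 : 0 < i) (hij : i < j) :
    (∃ u : ℕ, 1 ≤ u ∧ i = 2 ^ u ∧
      (j = 2 * i ∨ j = 4 * i ∨ j = 8 * i ∨ j = 16 * i ∨ j = 256 * i)) ∨
    ∃ T : ℕ, 1 ≤ T ∧ T ≤ 3 ∧ ∀ K : ℤ, ∃ k : ℤ, K ≤ k ∧ Odd k ∧ ∃ A : ℕ → ℤ,
      IsWalk i j k A ∧ (∀ n : ℕ, A (n + T + 1) - A (n + T) = A (n + 1) - A n) ∧
        ∀ n : ℕ, ¬ IsPosPrime (A n) := by
  have hj0 : 0 < j := by omega
  -- odd prime factors of a step
  have hone : ∀ d : ℤ, (d = i ∨ d = j) → ∀ q : ℕ, q.Prime → q ≠ 2 → (q : ℤ) ∣ d →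
      ∃ T : ℕ, 1 ≤ T ∧ T ≤ 3 ∧ ∀ K : ℤ, ∃ k : ℤ, K ≤ k ∧ Odd k ∧ ∃ A : ℕ → ℤ,
      IsWalk i j k A ∧ (∀ n : ℕ, A (n + T + 1) - A (n + T) = A (n + 1) - A n) ∧
        ∀ n : ℕ, ¬ IsPosPrime (A n) := by
    intro d hd q hq hq2 hqd
    exact ⟨1, le_refl _, by norm_num, fun K => avoid_one i j h0 hj0 d hd q hq hq2 hqd K⟩
  have hpow : ∀ d : ℤ, 0 < d → (d = i ∨ d = j) →
      (∃ u : ℕ, d = 2 ^ u) ∨ ∃ T : ℕ, 1 ≤ T ∧ T ≤ 3 ∧ ∀ K : ℤ, ∃ k : ℤ, K ≤ k ∧ Odd k ∧
      ∃ A : ℕ → ℤ, IsWalk i j k A ∧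
      (∀ n : ℕ, A (n + T + 1) - A (n + T) = A (n + 1) - A n) ∧
        ∀ n : ℕ, ¬ IsPosPrime (A n) := by
    intro d hd0 hd
    obtain ⟨e, he⟩ := Int.eq_ofNat_of_zero_le hd0.le
    by_cases h : ∃ q : ℕ, q.Prime ∧ q ≠ 2 ∧ q ∣ e
    · obtain ⟨q, hq, hq2, hqe⟩ := h
      right
      exact hone d hd q hq hq2 (by rw [he]; exact_mod_cast hqe)
    · left
      push Not at h
      have he0 : e ≠ 0 := by omega
      refine ⟨e.primeFactorsList.length, ?_⟩
      have := Nat.eq_prime_pow_of_unique_prime_dvd (p := 2) he0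
        (fun {q} hq hqe => by
          by_contra hne
          exact h q hq hne hqe)
      rw [he]
      exact_mod_cast this
  rcases hpow i h0 (Or.inl rfl) with ⟨u, hu⟩ | h
  swap
  · exact Or.inr h
  rcases hpow j hj0 (Or.inr rfl) with ⟨v, hv⟩ | h
  swap
  · exact Or.inr h
  have huv : u < v := by
    by_contra hcon
    push Not at hcon
    have : (2 : ℤ) ^ v ≤ 2 ^ u := pow_le_pow_right₀ (by norm_num) hcon
    omega
  obtain ⟨w, hw1, hw⟩ : ∃ w : ℕ, 1 ≤ w ∧ v = u + w := ⟨v - u, by omega, by omega⟩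
  have hji : j = 2 ^ w * i := by
    rw [hv, hu, hw, pow_add]
    ring
  -- small values of w
  by_cases hw' : w = 1 ∨ w = 2 ∨ w = 3 ∨ w = 4 ∨ w = 8
  · left
    have hu1 : 1 ≤ u := by
      by_contra hcon
      have : u = 0 := by omega
      rw [this, pow_zero] at hu
      rw [hu] at hi
      exact absurd hi (by decide)
    refine ⟨u, hu1, hu, ?_⟩
    rcases hw' with h | h | h | h | h <;> rw [hji, h] <;> norm_num
  right
  push Not at hw'
  obtain ⟨n1, n2, n3, n4, n8⟩ := hw'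
  have odd_of : ∀ (p m : ℕ), 1 ≤ m → p.Prime → p ∣ 2 ^ m + 1 → p ≠ 2 := by
    intro p m hm _ hpd h2
    rw [h2] at hpd
    have h3 : 2 ∣ 2 ^ m := dvd_pow_self 2 (by omega)
    have := (Nat.dvd_add_right h3).1 hpd
    omega
  rcases two_primes_or w hw1 with hpr | h3 | ⟨p, q, hp, hq, hpq, hpd, hqd⟩
  · -- 2^w+1 prime, w = 2^k
    obtain ⟨k, hk⟩ := Nat.pow_of_pow_add_prime (by norm_num) (by omega) hpr
    have hk4 : 4 ≤ k := by
      by_contra hcon
      push Not at hcon
      interval_cases k <;> simp at hk <;> omega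
    rcases Nat.even_or_odd k with hev | hod
    · -- k even: w - 1 = 3 m
      have h3 : 3 ∣ 2 ^ k - 1 := by
        obtain ⟨l, hl⟩ := hev
        have e : 2 ^ k = 4 ^ l := by
          rw [hl, ← two_mul, pow_mul]
          norm_num
        rw [e]
        have := Nat.sub_one_dvd_pow_sub_one (x := 4) (n := l)
        simpa using this
      obtain ⟨m, hm⟩ := h3
      have h16 : 2 ^ 4 ≤ 2 ^ k := Nat.pow_le_pow_right (by norm_num) hk4
      have hm5 : 5 ≤ m := by omega
      have hmodd : Odd m := by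
        have h2k : 2 ∣ 2 ^ k := dvd_pow_self 2 (by omega)
        rcases Nat.even_or_odd m with ⟨x, hx⟩ | h
        · exfalso
          omega
        · exact h
      obtain ⟨p, q, hp, hq, hp3, hq3, hpq, hd3, hdp, hdq⟩ := three_primes m hmodd hm5
      have hw3 : w = 3 * m + 1 := by omega
      have hsum : i + i + j = 2 * i * ((2 ^ (3 * m) + 1 : ℕ) : ℤ) := by
        rw [hji, hw3]
        push_cast
        ring
      refine ⟨3, by norm_num, le_refl _, fun K => ?_⟩
      refine avoid_three i j h0 hj0 i i j (Or.inl rfl) (Or.inl rfl) (Or.inr rfl) 3 p q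
        Nat.prime_three (by norm_num) hp (odd_of p (3 * m) (by omega) hp hdp) hq
        (odd_of q (3 * m) (by omega) hq hdq) (Ne.symm hp3) (Ne.symm hq3) hpq ?_ ?_ ?_ K
      · rw [hsum]
        exact Dvd.dvd.mul_left (by exact_mod_cast hd3) _
      · rw [hsum]
        exact Dvd.dvd.mul_left (by exact_mod_cast hdp) _
      · rw [hsum]
        exact Dvd.dvd.mul_left (by exact_mod_cast hdq) _
    · -- k odd: w + 1 = 3 m
      have h3 : 3 ∣ 2 ^ k + 1 := by
        have := hod.nat_add_dvd_pow_add_pow 2 1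
        simpa using this
      obtain ⟨m, hm⟩ := h3
      have h16 : 2 ^ 4 ≤ 2 ^ k := Nat.pow_le_pow_right (by norm_num) hk4
      have hm5 : 5 ≤ m := by omega
      have hmodd : Odd m := by
        have h2k : 2 ∣ 2 ^ k := dvd_pow_self 2 (by omega)
        rcases Nat.even_or_odd m with ⟨x, hx⟩ | h
        · exfalso
          omega
        · exact h
      obtain ⟨p, q, hp, hq, hp3, hq3, hpq, hd3, hdp, hdq⟩ := three_primes m hmodd hm5
      have hw3 : w + 1 = 3 * m := by omega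
      have hsum : i + j + j = i * ((2 ^ (3 * m) + 1 : ℕ) : ℤ) := by
        rw [hji, ← hw3]
        push_cast
        ring
      refine ⟨3, by norm_num, le_refl _, fun K => ?_⟩
      refine avoid_three i j h0 hj0 i j j (Or.inl rfl) (Or.inr rfl) (Or.inr rfl) 3 p q
        Nat.prime_three (by norm_num) hp (odd_of p (3 * m) (by omega) hp hdp) hq
        (odd_of q (3 * m) (by omega) hq hdq) (Ne.symm hp3) (Ne.symm hq3) hpq ?_ ?_ ?_ K
      · rw [hsum]
        exact Dvd.dvd.mul_left (by exact_mod_cast hd3) _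
      · rw [hsum]
        exact Dvd.dvd.mul_left (by exact_mod_cast hdp) _
      · rw [hsum]
        exact Dvd.dvd.mul_left (by exact_mod_cast hdq) _
  · exact absurd h3 n3
  · have hsum : i + j = i * ((2 ^ w + 1 : ℕ) : ℤ) := by
      rw [hji]
      push_cast
      ring
    refine ⟨2, by norm_num, by norm_num, fun K => ?_⟩
    refine avoid_two i j h0 hj0 p q hp (odd_of p w hw1 hp hpd) hq (odd_of q w hw1 hq hqd) hpq
      ?_ ?_ K
    · rw [hsum]
      exact Dvd.dvd.mul_left (by exact_mod_cast hpd) _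
    · rw [hsum]
      exact Dvd.dvd.mul_left (by exact_mod_cast hqd) _

end Pool.Agent.Helper27
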